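import Mathlib
import Pool.Agent.K4W.StmtsA

/-! Squad K4W, row AGS: quadratic Gauss sums modulo an odd prime, with a linear term. -/

set_option autoImplicit false

namespace Pool.Agent.K4W.H10

open Complex Pool.Agent.K4W
open Pool.Agent.Helper69_Weyl (ee W)

theorem ee_char (p : ℕ) [NeZero p] (n : ℤ) :
    ee ((n : ℝ) / (p : ℝ)) = ZMod.stdAddChar (N := p) (n : ZMod p) := by
  rw [ZMod.stdAddChar_coe]
  unfold ee
  congr 1
  push_cast
  ring

theorem sum_char (p : ℕ) [NeZero p] (a c : ℤ) :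
    ∑ z ∈ Finset.range p, ee (((a * (z : ℤ) ^ 2 + c * (z : ℤ) : ℤ) : ℝ) / (p : ℝ)) =
      ∑ z : ZMod p, ZMod.stdAddChar (N := p) ((a : ZMod p) * z ^ 2 + (c : ZMod p) * z) := by
  refine Finset.sum_nbij' (fun z : ℕ => (z : ZMod p)) (fun z : ZMod p => z.val) ?_ ?_ ?_ ?_ ?_
  · intro z _
    exact Finset.mem_univ _
  · intro z _
    exact Finset.mem_range.mpr (ZMod.val_lt z)
  · intro z hz
    exact ZMod.val_cast_of_lt (Finset.mem_range.mp hz)
  · intro z _
    exact ZMod.natCast_zmod_val z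
  · intro z _
    rw [ee_char]
    congr 1
    push_cast
    ring

theorem gauss_sq (p : ℕ) [Fact p.Prime] (hp2 : p ≠ 2) (a c : ZMod p) (ha : a ≠ 0) :
    (∑ z : ZMod p, ZMod.stdAddChar (N := p) (a * z ^ 2 + c * z)) *
      (starRingEnd ℂ) (∑ z : ZMod p, ZMod.stdAddChar (N := p) (a * z ^ 2 + c * z)) = (p : ℂ) := by
  have h2 : (2 : ZMod p) ≠ 0 := by
    intro h
    have h' : ((2 : ℕ) : ZMod p) = 0 := by exact_mod_cast h
    rw [ZMod.natCast_eq_zero_iff] at h'
    have := Nat.le_of_dvd (by norm_num) h'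
    have h3 := (Fact.out : p.Prime).two_le
    omega
  have e1 : (∑ z : ZMod p, ZMod.stdAddChar (N := p) (a * z ^ 2 + c * z)) *
      (starRingEnd ℂ) (∑ z : ZMod p, ZMod.stdAddChar (N := p) (a * z ^ 2 + c * z)) =
      ∑ w : ZMod p, ∑ z : ZMod p, ZMod.stdAddChar (N := p) (a * z ^ 2 + c * z) *
        ZMod.stdAddChar (N := p) (-(a * w ^ 2 + c * w)) := by
    rw [map_sum, Finset.sum_mul_sum, Finset.sum_comm]
    refine Finset.sum_congr rfl fun w _ => Finset.sum_congr rfl fun z _ => ?_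
    rw [AddChar.map_neg_eq_conj]
  have e2 : ∀ w : ZMod p, ∑ z : ZMod p, ZMod.stdAddChar (N := p) (a * z ^ 2 + c * z) *
        ZMod.stdAddChar (N := p) (-(a * w ^ 2 + c * w)) =
      ∑ h : ZMod p, ZMod.stdAddChar (N := p) (a * h ^ 2 + c * h) *
        ZMod.stdAddChar (N := p) (w * (2 * a * h)) := by
    intro w
    rw [← Equiv.sum_comp (Equiv.addRight w)]
    refine Finset.sum_congr rfl fun h _ => ?_
    rw [← AddChar.map_add_eq_mul, ← AddChar.map_add_eq_mul]
    congr 1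
    simp only [Equiv.coe_addRight]
    ring
  rw [e1, Finset.sum_congr rfl fun w _ => e2 w, Finset.sum_comm]
  have e3 : ∀ h : ZMod p, ∑ w : ZMod p, ZMod.stdAddChar (N := p) (a * h ^ 2 + c * h) *
        ZMod.stdAddChar (N := p) (w * (2 * a * h)) = if h = 0 then (p : ℂ) else 0 := by
    intro h
    rw [← Finset.mul_sum, AddChar.sum_mulShift _ (ZMod.isPrimitive_stdAddChar p)]
    by_cases hh : h = 0
    · rw [if_pos hh, if_pos (by rw [hh]; ring), hh, ZMod.card]
      have e0 : a * 0 ^ 2 + c * 0 = 0 := by ring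
      rw [e0, AddChar.map_zero_eq_one, one_mul]
    · rw [if_neg hh, if_neg (mul_ne_zero (mul_ne_zero h2 ha) hh)]
      simp
  rw [Finset.sum_congr rfl fun h _ => e3 h, Finset.sum_ite_eq' Finset.univ (0 : ZMod p),
    if_pos (Finset.mem_univ _)]

theorem ags : AgsStmt := by
  intro p a c hp hp2 ha
  haveI : Fact p.Prime := ⟨hp⟩
  rw [sum_char]
  have ha' : (a : ZMod p) ≠ 0 := by
    intro h
    exact ha ((ZMod.intCast_zmod_eq_zero_iff_dvd a p).mp h)
  have h := gauss_sq p hp2 (a : ZMod p) (c : ZMod p) ha'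
  rw [Complex.mul_conj'] at h
  exact_mod_cast h

end Pool.Agent.K4W.H10
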