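import Mathlib
import Pool.Agent.K4W.StmtsF

/-! Squad K4W, row CRN: the corner of the cell. -/

set_option autoImplicit false

namespace Pool.Agent.K4W.H10

open Pool.Agent.K4W

theorem crn_core (y n r β β' : ℝ) (hy : 2 ≤ y) (hn : 0 < n) (hn2 : n ≤ 2 * y ^ 64000)
    (hr0 : 0 < r) (hr : r ≤ 2 * n * y ^ 84) (h1 : r * |β| ≤ 2 * y ^ 84 / n)
    (h2 : y ^ 170 / (y ^ 1000 * n) ≤ r * |β|) (h3 : |β - β'| ≤ 1 / y ^ 130216) :
    r * |β'| ≤ 3 * y ^ 84 / n ∧ y ^ 166 / (y ^ 1000 * n) ≤ r * |β'| := by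
  have hy0 : 0 < y := by linarith
  have hy1 : 1 ≤ y := by linarith
  have hd0 : 0 ≤ |β - β'| := abs_nonneg _
  -- the error
  have e1 : |β - β'| * y ^ 130216 ≤ 1 := by
    rwa [le_div_iff₀ (pow_pos hy0 _)] at h3
  have hn3 : n * n ≤ 4 * y ^ 128000 := by
    calc n * n ≤ (2 * y ^ 64000) * (2 * y ^ 64000) := by
          apply mul_le_mul hn2 hn2 hn.le
          exact hn.le.trans hn2
      _ = 4 * y ^ (64000 + 64000) := by rw [pow_add]; ring
      _ = 4 * y ^ 128000 := by norm_num only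
  have e2 : r * n ≤ 8 * y ^ 128084 := by
    calc r * n ≤ (2 * n * y ^ 84) * n := mul_le_mul_of_nonneg_right hr hn.le
      _ = 2 * y ^ 84 * (n * n) := by ring
      _ ≤ 2 * y ^ 84 * (4 * y ^ 128000) := by
          apply mul_le_mul_of_nonneg_left hn3
          exact mul_nonneg (by norm_num) (pow_pos hy0 _).le
      _ = 8 * y ^ (128000 + 84) := by rw [pow_add]; ring
      _ = 8 * y ^ 128084 := by norm_num only
  have e3 : r * |β - β'| * n * y ^ 130216 ≤ 8 * y ^ 128084 := by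
    calc r * |β - β'| * n * y ^ 130216 = (r * n) * (|β - β'| * y ^ 130216) := by ring
      _ ≤ (r * n) * 1 := mul_le_mul_of_nonneg_left e1 (mul_pos hr0 hn).le
      _ = r * n := mul_one _
      _ ≤ 8 * y ^ 128084 := e2
  have hy3 : 8 ≤ y ^ 3 := by
    calc (8 : ℝ) = 2 ^ 3 := by norm_num
      _ ≤ y ^ 3 := pow_le_pow_left₀ (by norm_num) hy 3
  have e4 : r * |β - β'| * n * y ^ 1000 ≤ 1 := by
    have hp : 0 < y ^ 129216 := pow_pos hy0 _
    have h5 : r * |β - β'| * n * y ^ 1000 * y ^ 129216 ≤ 1 * y ^ 129216 := by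
      calc r * |β - β'| * n * y ^ 1000 * y ^ 129216 =
          r * |β - β'| * n * y ^ (1000 + 129216) := by rw [pow_add]; ring
        _ = r * |β - β'| * n * y ^ 130216 := by norm_num only
        _ ≤ 8 * y ^ 128084 := e3
        _ ≤ y ^ 3 * y ^ 128084 := mul_le_mul_of_nonneg_right hy3 (pow_pos hy0 _).le
        _ = y ^ (3 + 128084) := (pow_add _ _ _).symm
        _ ≤ y ^ 129216 := pow_le_pow_right₀ hy1 (by norm_num)
        _ = 1 * y ^ 129216 := (one_mul _).symm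
    exact le_of_mul_le_mul_right h5 hp
  have e5 : r * |β - β'| * n ≤ 1 := by
    have hp : 1 ≤ y ^ 1000 := one_le_pow₀ hy1
    calc r * |β - β'| * n = r * |β - β'| * n * 1 := (mul_one _).symm
      _ ≤ r * |β - β'| * n * y ^ 1000 :=
          mul_le_mul_of_nonneg_left hp (mul_nonneg (mul_nonneg hr0.le hd0) hn.le)
      _ ≤ 1 := e4
  have t1 : |β'| ≤ |β| + |β - β'| := by
    calc |β'| = |β - (β - β')| := by rw [sub_sub_cancel]
      _ ≤ |β| + |β - β'| := abs_sub _ _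
  have t2 : |β| ≤ |β'| + |β - β'| := by
    calc |β| = |β' + (β - β')| := by rw [add_sub_cancel]
      _ ≤ |β'| + |β - β'| := abs_add_le _ _
  have hrn : 0 < r * n := mul_pos hr0 hn
  have g1 : r * |β| * n ≤ 2 * y ^ 84 := by
    rwa [le_div_iff₀ hn] at h1
  have g2 : y ^ 170 ≤ r * |β| * n * y ^ 1000 := by
    rw [div_le_iff₀ (mul_pos (pow_pos hy0 _) hn)] at h2
    calc y ^ 170 ≤ r * |β| * (y ^ 1000 * n) := h2
      _ = r * |β| * n * y ^ 1000 := by ring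
  constructor
  · have hp : 1 ≤ y ^ 84 := one_le_pow₀ hy1
    rw [le_div_iff₀ hn]
    calc r * |β'| * n = (r * n) * |β'| := by ring
      _ ≤ (r * n) * (|β| + |β - β'|) := mul_le_mul_of_nonneg_left t1 hrn.le
      _ = r * |β| * n + r * |β - β'| * n := by ring
      _ ≤ 2 * y ^ 84 + 1 := add_le_add g1 e5
      _ ≤ 3 * y ^ 84 := by linarith
  · rw [div_le_iff₀ (mul_pos (pow_pos hy0 _) hn)]
    have hp : 1 ≤ y ^ 169 := one_le_pow₀ hy1
    have hp6 : y ^ 166 ≤ y ^ 169 := pow_le_pow_right₀ hy1 (by norm_num)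
    have h6 : 2 * y ^ 169 ≤ y ^ 170 := by
      calc 2 * y ^ 169 ≤ y * y ^ 169 := mul_le_mul_of_nonneg_right hy (pow_pos hy0 _).le
        _ = y ^ 170 := by rw [← pow_succ']
    have h7 : r * |β| * n * y ^ 1000 ≤ r * |β'| * n * y ^ 1000 +
        r * |β - β'| * n * y ^ 1000 := by
      calc r * |β| * n * y ^ 1000 = (r * n * y ^ 1000) * |β| := by ring
        _ ≤ (r * n * y ^ 1000) * (|β'| + |β - β'|) :=
            mul_le_mul_of_nonneg_left t2 (mul_nonneg hrn.le (pow_pos hy0 _).le)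
        _ = r * |β'| * n * y ^ 1000 + r * |β - β'| * n * y ^ 1000 := by ring
    calc y ^ 166 ≤ r * |β'| * n * y ^ 1000 := by linarith
      _ = r * |β'| * (y ^ 1000 * n) := by ring

theorem crn : CrnStmt := by
  intro Z N r b β β' hZ hN hodd h1 h2 hb h3 h4 h5
  have hZ' : (2 : ℝ) ≤ (Z : ℝ) := by exact_mod_cast hZ
  have hN0 : 0 < N := lt_of_lt_of_le (Nat.pow_pos (by omega)) hN.1
  have hN' : (0 : ℝ) < (N : ℝ) := by exact_mod_cast hN0
  have hN2 : (N : ℝ) ≤ 2 * (Z : ℝ) ^ 64000 := by exact_mod_cast hN.2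
  have hr0 : 0 < r := hodd.pos
  have hr' : (0 : ℝ) < (r : ℝ) := by exact_mod_cast hr0
  have hr2 : (r : ℝ) ≤ 2 * (N : ℝ) * (Z : ℝ) ^ 84 := by exact_mod_cast h2
  obtain ⟨k1, k2⟩ := crn_core (Z : ℝ) (N : ℝ) (r : ℝ) β β' hZ' hN' hN2 hr' hr2 h3 h4 h5
  have hg : Int.gcd 1 (r : ℤ) = 1 := by
    exact Int.one_gcd
  exact ⟨⟨hodd, h1, h2, hb, k1, k2⟩, ⟨hodd, h1, h2, hg, k1, k2⟩⟩

end Pool.Agent.K4W.H10
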