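import Mathlib
import Pool.Agent.K4W.StmtsP

/-! Squad K4W, row FAC: theta near a fraction with an odd denominator. -/

set_option autoImplicit false

namespace Pool.Agent.K4W.H10

open Complex Pool.Agent.K4W
open Pool.Agent.Helper69_Weyl (ee W)

theorem fac (poi : PoiStmt) (csq : CsqStmt) : FacStmt := by
  intro N r a w γ hN hr hw
  rw [poi N r a γ hN hr, ← tsum_mul_left]
  apply tsum_congr
  intro m
  rw [csq r a m w hr hw]
  ring

end Pool.Agent.K4W.H10
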