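import Mathlib
import Pool.Agent.K4W.StmtsM

/-! Squad K4W, row MCO: summing over one coordinate. -/

set_option autoImplicit false

namespace Pool.Agent.K4W.H10

open Pool.Agent.K4W

theorem mco : McoStmt := by
  intro n t i₀ F
  rw [← Finset.sum_product' (Fintype.piFinset (Function.update t i₀ {0})) (t i₀)
    (fun m x => F (Function.update m i₀ x))]
  refine Finset.sum_nbij' (fun m => (Function.update m i₀ 0, m i₀))
    (fun y => Function.update y.1 i₀ y.2) ?_ ?_ ?_ ?_ ?_
  · intro m hm
    rw [Finset.mem_product]
    rw [Fintype.mem_piFinset] at hm
    refine ⟨?_, hm i₀⟩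
    rw [Fintype.mem_piFinset]
    intro i
    by_cases h : i = i₀
    · subst h
      rw [Function.update_self]
      show Function.update m i 0 i ∈ ({0} : Finset ℤ)
      rw [Function.update_self]
      exact Finset.mem_singleton_self _
    · rw [Function.update_of_ne h]
      show Function.update m i₀ 0 i ∈ t i
      rw [Function.update_of_ne h]
      exact hm i
  · rintro ⟨m, x⟩ hy
    rw [Finset.mem_product] at hy
    obtain ⟨h1, h2⟩ := hy
    rw [Fintype.mem_piFinset] at h1 ⊢
    intro i
    by_cases h : i = i₀
    · subst h
      rw [Function.update_self]
      exact h2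
    · have h3 := h1 i
      rw [Function.update_of_ne h] at h3
      rw [Function.update_of_ne h]
      exact h3
  · intro m _
    simp only [Function.update_idem, Function.update_eq_self]
  · rintro ⟨m, x⟩ hy
    rw [Finset.mem_product] at hy
    obtain ⟨h1, h2⟩ := hy
    rw [Fintype.mem_piFinset] at h1
    have h3 := h1 i₀
    rw [Function.update_self, Finset.mem_singleton] at h3
    simp only [Function.update_idem, Function.update_self]
    have h4 : Function.update m i₀ 0 = m := by
      have h5 := Function.update_eq_self i₀ m
      have h6 : m i₀ = 0 := h3
      rw [h6] at h5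
      exact h5
    rw [h4]
  · intro m _
    simp only [Function.update_idem, Function.update_eq_self]

end Pool.Agent.K4W.H10
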