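import Mathlib
import Pool.Agent.K4W.StmtsU

/-! Squad K4W, row UBC: the autocorrelation and `U g 1 1`. -/

set_option autoImplicit false

namespace Pool.Agent.K4W.H10

open Pool.Agent.K4W
open Pool.Agent.Helper69_Weyl (ee W conj_ee ee_add ee_neg norm_ee)

theorem ubc (usm : UsmStmt) (uex : UexStmt) : UbcStmt := by
  constructor
  · intro N t ξ h
    obtain ⟨-, -, h3⟩ := usm
    have e : AA (f N t ξ) h = AA (f N t 0) h * ee (-(ξ * (h : ℝ))) := by
      unfold AA
      rw [← tsum_mul_right]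
      apply tsum_congr
      intro y
      have e1 : f N t ξ y = f N t 0 y * ee (ξ * (y : ℝ)) := by
        have := h3 N t 0 ξ y
        rwa [zero_add] at this
      have e2 : f N t ξ (y + h) = f N t 0 (y + h) * ee (ξ * ((y + h : ℤ) : ℝ)) := by
        have := h3 N t 0 ξ (y + h)
        rwa [zero_add] at this
      have e3 : ee (ξ * (y : ℝ)) * (starRingEnd ℂ) (ee (ξ * ((y + h : ℤ) : ℝ))) =
          ee (-(ξ * (h : ℝ))) := by
        rw [conj_ee, ← ee_add]
        congr 1
        push_cast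
        ring
      rw [e1, e2, map_mul]
      calc f N t 0 y * ee (ξ * (y : ℝ)) * ((starRingEnd ℂ) (f N t 0 (y + h)) *
            (starRingEnd ℂ) (ee (ξ * ((y + h : ℤ) : ℝ)))) =
          f N t 0 y * (starRingEnd ℂ) (f N t 0 (y + h)) * (ee (ξ * (y : ℝ)) *
            (starRingEnd ℂ) (ee (ξ * ((y + h : ℤ) : ℝ)))) := by ring
        _ = _ := by rw [e3]
    rw [e, norm_mul, norm_ee, mul_one]
  · intro g hg
    have hU : ∀ h : ℤ, Ut g 1 1 h = ‖AA g h‖ ^ 2 := by
      intro h
      unfold Ut AA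
      rw [Finset.sum_range_one]
      congr 2
      apply tsum_congr
      intro y
      have e1 : (((0 : ℕ) : ℤ) + ((1 : ℕ) : ℤ) * y) = y := by push_cast; ring
      have e2 : (y + ((1 : ℕ) : ℤ) * h) = y + h := by push_cast; ring
      rw [e1, e2]
    obtain ⟨h1, -⟩ := uex g 1 1 le_rfl le_rfl hg
    refine ⟨?_, ?_⟩
    · have e : (fun h : ℤ => ‖AA g h‖ ^ 2) = fun h : ℤ => Ut g 1 1 h := by
        funext h
        exact (hU h).symm
      rw [e]
      exact h1
    · have e : U g 1 1 = ∑' h : ℤ, Ut g 1 1 h := rfl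
      rw [e]
      exact tsum_congr hU

end Pool.Agent.K4W.H10
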